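import Mathlib

open Matrix Equiv

namespace Pool.Agent.H70K

/-- Coordinates of a tensor in `(V^{⊗n})^{⊗d}` for `V = ℂ^m`: there are `d` blocks of `n` factors,
and `T I` is the coefficient of the basis tensor whose factor `b` of block `a` is `e_(I a b)`. -/
abbrev Ten (m d n : ℕ) := (Fin d → Fin n → Fin m) → ℂ

/-- The action of a matrix `g` on tensors, `g e_j = ∑ i, g i j e_i` in every factor. -/
def act {m d n : ℕ} (g : Matrix (Fin m) (Fin m) ℂ) (T : Ten m d n) : Ten m d n :=
  fun I => ∑ J : Fin d → Fin n → Fin m, (∏ a, ∏ b, g (I a b) (J a b)) * T J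

/-- `T` lies in `S^d(S^n V)`: it is invariant under the permutations of the `d` blocks and of the
`n` factors inside each block. -/
def IsSS {m d n : ℕ} (T : Ten m d n) : Prop :=
  ∀ (σ : Perm (Fin d)) (τ : Fin d → Perm (Fin n)) (I : Fin d → Fin n → Fin m),
    T (fun a b => I (σ a) (τ a b)) = T I

/-- Regrouping `(V^{⊗n})^{⊗d} = (V^{⊗d})^{⊗n}`: the `b`-th new block collects the `b`-th factor of
each of the `d` old blocks. -/
def regroup {m d n : ℕ} (T : Ten m d n) : Ten m n d :=
  fun K => T (fun a b => K b a)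

/-- Symmetrisation inside each of the `n` blocks of `d` factors. -/
noncomputable def symIn {m n d : ℕ} (U : Ten m n d) : Ten m n d :=
  fun K => (∑ ρ : Fin n → Perm (Fin d), U (fun b a => K b (ρ b a))) / ((d.factorial : ℂ) ^ n)

/-- Symmetrisation over the `n` blocks. -/
noncomputable def symOut {m n d : ℕ} (U : Ten m n d) : Ten m n d :=
  fun K => (∑ π : Perm (Fin n), U (fun b a => K (π b) a)) / (n.factorial : ℂ)

/-- The Hermite-Hadamard-Howe map `h_{d,n}`. -/
noncomputable def hmap {m d n : ℕ} (T : Ten m d n) : Ten m n d := symOut (symIn (regroup T))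

/-- For `V = ℂ^n` the module `S_{(d^n)} V` is the one-dimensional module `det^d`, and `rect d n` is
the `S_{(d^n)} V`-isotypic component of `S^d(S^n V)`: all `T` in `S^d(S^n V)` with
`g T = det(g)^d T` for every invertible `g`. -/
def rect (d n : ℕ) : Set (Ten n d n) :=
  {T | IsSS T ∧ ∀ g : GL (Fin n) ℂ, act (g : Matrix (Fin n) (Fin n) ℂ) T
      = fun I => (g : Matrix (Fin n) (Fin n) ℂ).det ^ d * T I}

end Pool.Agent.H70K
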