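import Pool.Agent.H70K.Defs

open Matrix Equiv

namespace Pool.Agent.H70K

/-- evaluation on `n × m` matrices. -/
def W {m d n : ℕ} (T : Ten m d n) (X : Matrix (Fin n) (Fin m) ℂ) : ℂ :=
  ∑ I : Fin d → Fin n → Fin m, T I * ∏ a, ∏ b, X b (I a b)

lemma W_mul {m d n : ℕ} (T : Ten m d n) (X : Matrix (Fin n) (Fin m) ℂ)
    (g : Matrix (Fin m) (Fin m) ℂ) :
    W T (X * g) = W (act g T) X := by
  unfold W act
  have h1 : ∀ I : Fin d → Fin n → Fin m, (∏ a, ∏ b, (X * g) b (I a b))
      = ∑ J : Fin d → Fin n → Fin m, (∏ a, ∏ b, X b (J a b)) *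
          (∏ a, ∏ b, g (J a b) (I a b)) := by
    intro I
    simp only [Matrix.mul_apply, Finset.prod_univ_sum, Fintype.piFinset_univ]
    refine Finset.sum_congr rfl fun J _ => ?_
    simp only [Finset.prod_mul_distrib]
  simp only [h1, Finset.mul_sum, Finset.sum_mul]
  rw [Finset.sum_comm]
  refine Finset.sum_congr rfl fun J _ => Finset.sum_congr rfl fun I _ => ?_
  ring

lemma W_perm {m d n : ℕ} (T : Ten m d n) (hT : IsSS T) (X : Matrix (Fin n) (Fin m) ℂ)
    (s : Perm (Fin n)) : W T (X.submatrix s id) = W T X := by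
  unfold W
  let e : (Fin d → Fin n → Fin m) ≃ (Fin d → Fin n → Fin m) :=
    Equiv.piCongrRight fun _ => (Equiv.arrowCongr s (Equiv.refl _))
  rw [← Equiv.sum_comp e.symm]
  refine Finset.sum_congr rfl fun I _ => ?_
  have h1 : T (e.symm I) = T I := by
    have := hT 1 (fun _ => s) I
    rw [← this]
    congr 1
  have h2 : ∀ a, (∏ b, (X.submatrix s id) b (e.symm I a b)) = ∏ b, X b (I a b) := by
    intro a
    rw [← Equiv.prod_comp s (fun b => X b (I a b))]
    rfl
  rw [h1]
  congr 1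
  exact Finset.prod_congr rfl fun a _ => h2 a

lemma W_det {d n : ℕ} {T : Ten n d n} (hT : T ∈ rect d n) (X : Matrix (Fin n) (Fin n) ℂ)
    (g : GL (Fin n) ℂ) :
    W T (X * (g : Matrix (Fin n) (Fin n) ℂ)) = (g : Matrix (Fin n) (Fin n) ℂ).det ^ d * W T X := by
  rw [W_mul, hT.2 g]
  unfold W
  rw [Finset.mul_sum]
  refine Finset.sum_congr rfl fun I _ => by ring

lemma W_one {d n : ℕ} {T : Ten n d n} (hT : T ∈ rect d n) (hd : Odd d) (hn : 2 ≤ n) :
    W T 1 = 0 := by
  let s : Perm (Fin n) := Equiv.swap ⟨0, by omega⟩ ⟨1, by omega⟩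
  have hs : Perm.sign s = -1 := Perm.sign_swap (by simp)
  have hdet : ((1 : Matrix (Fin n) (Fin n) ℂ).submatrix s id).det = -1 := by
    rw [Matrix.det_permute, det_one, hs]; simp
  have hu : IsUnit ((1 : Matrix (Fin n) (Fin n) ℂ).submatrix s id).det := by
    rw [hdet]; exact isUnit_one.neg
  let g : GL (Fin n) ℂ := Matrix.GeneralLinearGroup.mk'' _ hu
  have h1 := W_det hT 1 g
  have h2 : (g : Matrix (Fin n) (Fin n) ℂ) = (1 : Matrix (Fin n) (Fin n) ℂ).submatrix s id := rfl
  rw [h2, one_mul, W_perm T hT.1, hdet, hd.neg_one_pow] at h1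
  have : (2 : ℂ) * W T 1 = 0 := by linear_combination h1
  simpa using this

lemma W_unit {d n : ℕ} {T : Ten n d n} (hT : T ∈ rect d n) (hd : Odd d) (hn : 2 ≤ n)
    (X : Matrix (Fin n) (Fin n) ℂ) (hX : X.det ≠ 0) : W T X = 0 := by
  have h1 := W_det hT 1 (Matrix.GeneralLinearGroup.mk'' X (isUnit_iff_ne_zero.2 hX))
  have h2 : ((Matrix.GeneralLinearGroup.mk'' X (isUnit_iff_ne_zero.2 hX) : GL (Fin n) ℂ) :
      Matrix (Fin n) (Fin n) ℂ) = X := rfl
  rw [h2, one_mul, W_one hT hd hn, mul_zero] at h1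
  exact h1

/-- The polynomial. -/
noncomputable def Q {m d n : ℕ} (T : Ten m d n) : MvPolynomial (Fin n × Fin m) ℂ :=
  ∑ I : Fin d → Fin n → Fin m, MvPolynomial.C (T I) * ∏ a, ∏ b, MvPolynomial.X (b, I a b)

lemma eval_Q {m d n : ℕ} (T : Ten m d n) (x : Fin n × Fin m → ℂ) :
    MvPolynomial.eval x (Q T) = W T (fun b i => x (b, i)) := by
  unfold Q W
  simp

lemma Q_zero {d n : ℕ} {T : Ten n d n} (hT : T ∈ rect d n) (hd : Odd d) (hn : 2 ≤ n) :
    Q T = 0 := by
  have h : Q T * (Matrix.mvPolynomialX (Fin n) (Fin n) ℂ).det = 0 := by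
    apply MvPolynomial.funext
    intro x
    rw [map_mul, map_zero, eval_Q]
    by_cases hx : (Matrix.of fun b i => x (b, i) : Matrix (Fin n) (Fin n) ℂ).det = 0
    · rw [Matrix.eval_det_mvPolynomialX, hx, mul_zero]
    · rw [show (fun b i => x (b, i)) = (Matrix.of fun b i => x (b, i) : Matrix (Fin n) (Fin n) ℂ)
        from rfl, W_unit hT hd hn _ hx, zero_mul]
  rcases mul_eq_zero.1 h with h | h
  · exact h
  · exact absurd h (Matrix.det_mvPolynomialX_ne_zero _ _)

lemma exists_perm {α β : Type} [Fintype α] [DecidableEq β] (f g : α → β)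
    (h : ∀ j, Fintype.card {a // f a = j} = Fintype.card {a // g a = j}) :
    ∃ σ : Perm α, ∀ a, g (σ a) = f a := by
  refine ⟨(Equiv.sigmaFiberEquiv f).symm.trans
    ((Equiv.sigmaCongrRight fun j => Fintype.equivOfCardEq (h j)).trans
      (Equiv.sigmaFiberEquiv g)), fun a => ?_⟩
  exact (Fintype.equivOfCardEq (h (f a)) ⟨a, rfl⟩).2

/-- exponent of the monomial attached to `I`. -/
noncomputable def mexp {m d n : ℕ} (I : Fin d → Fin n → Fin m) : (Fin n × Fin m) →₀ ℕ :=
  ∑ a, ∑ b, Finsupp.single (b, I a b) 1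

lemma prod_X {m d n : ℕ} (I : Fin d → Fin n → Fin m) :
    (∏ a, ∏ b, (MvPolynomial.X (b, I a b) : MvPolynomial (Fin n × Fin m) ℂ))
      = MvPolynomial.monomial (mexp I) 1 := by
  unfold mexp
  simp only [MvPolynomial.X, ← MvPolynomial.monomial_sum_one]

lemma mexp_apply {m d n : ℕ} (I : Fin d → Fin n → Fin m) (b : Fin n) (j : Fin m) :
    mexp I (b, j) = Fintype.card {a // I a b = j} := by
  unfold mexp
  simp only [Finsupp.finsetSum_apply, Finsupp.single_apply, Prod.mk.injEq]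
  rw [Fintype.card_subtype, Finset.card_filter]
  refine Finset.sum_congr rfl fun a _ => ?_
  rw [Finset.sum_eq_single b]
  · simp
  · intro b' _ hb'
    simp [hb']
  · simp

lemma exists_of_mexp_eq {m d n : ℕ} (I K : Fin d → Fin n → Fin m) (h : mexp I = mexp K) :
    ∃ ρ : Fin n → Perm (Fin d), ∀ a b, K (ρ b a) b = I a b := by
  have h1 : ∀ b, ∃ σ : Perm (Fin d), ∀ a, K (σ a) b = I a b := by
    intro b
    apply exists_perm (fun a => I a b) (fun a => K a b)
    intro j
    rw [← mexp_apply, ← mexp_apply, h]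
  choose ρ hρ using h1
  exact ⟨ρ, fun a b => hρ b a⟩

/-- symmetrisation over the `n` groups of `d` corresponding slots -/
def T' {m d n : ℕ} (T : Ten m d n) : Ten m d n :=
  fun I => ∑ ρ : Fin n → Perm (Fin d), T (fun a b => I (ρ b a) b)

lemma T'_perm {m d n : ℕ} (T : Ten m d n) (I : Fin d → Fin n → Fin m)
    (ρ : Fin n → Perm (Fin d)) : T' T (fun a b => I (ρ b a) b) = T' T I := by
  unfold T'
  exact Fintype.sum_equiv (Equiv.mulLeft ρ) _ _ (fun τ => rfl)

lemma mexp_perm {m d n : ℕ} (I : Fin d → Fin n → Fin m)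
    (ρ : Fin n → Perm (Fin d)) : mexp (fun a b => I (ρ b a) b) = mexp I := by
  unfold mexp
  rw [Finset.sum_comm, Finset.sum_comm (f := fun a b => Finsupp.single (b, I a b) 1)]
  refine Finset.sum_congr rfl fun b _ => ?_
  exact Equiv.sum_comp (ρ b) (fun a => Finsupp.single (b, I a b) 1)

lemma Q_T' {m d n : ℕ} (T : Ten m d n) (h : Q T = 0) : Q (T' T) = 0 := by
  unfold Q T' at *
  simp only [map_sum, Finset.sum_mul]
  rw [Finset.sum_comm]
  refine Finset.sum_eq_zero fun ρ _ => ?_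
  rw [← h]
  let e : (Fin d → Fin n → Fin m) ≃ (Fin d → Fin n → Fin m) :=
    { toFun := fun I a b => I (ρ b a) b
      invFun := fun I a b => I ((ρ b).symm a) b
      left_inv := fun I => by ext; simp
      right_inv := fun I => by ext; simp }
  rw [← Equiv.sum_comp e (fun I => MvPolynomial.C (T I) *
    ∏ a, ∏ b, (MvPolynomial.X (b, I a b) : MvPolynomial (Fin n × Fin m) ℂ))]
  refine Finset.sum_congr rfl fun I _ => ?_
  rw [prod_X, prod_X]
  congr 2
  exact congrArg _ (mexp_perm I ρ).symm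

lemma T'_eq_zero {m d n : ℕ} (T : Ten m d n) (h : Q T = 0) (K : Fin d → Fin n → Fin m) :
    T' T K = 0 := by
  have h1 := Q_T' T h
  have h2 := congrArg (MvPolynomial.coeff (mexp K)) h1
  unfold Q at h2
  simp only [MvPolynomial.coeff_sum, MvPolynomial.coeff_C_mul, prod_X,
    MvPolynomial.coeff_monomial, MvPolynomial.coeff_zero] at h2
  have h3 : ∀ I : Fin d → Fin n → Fin m, T' T I * (if mexp I = mexp K then 1 else 0)
      = T' T K * (if mexp I = mexp K then 1 else 0) := by
    intro I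
    split_ifs with hI
    · obtain ⟨ρ, hρ⟩ := exists_of_mexp_eq I K hI
      have : I = fun a b => K (ρ b a) b := by
        ext a b; rw [hρ]
      rw [this, T'_perm]
    · simp
  simp only [h3, ← Finset.mul_sum] at h2
  rcases mul_eq_zero.1 h2 with h2 | h2
  · exact h2
  · exfalso
    rw [Finset.sum_boole] at h2
    have h5 : 0 < (Finset.univ.filter fun I : Fin d → Fin n → Fin m => mexp I = mexp K).card :=
      Finset.card_pos.2 ⟨K, by simp⟩
    have h6 := Nat.cast_eq_zero.1 h2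
    omega

lemma hmap_eq_zero {m d n : ℕ} (T : Ten m d n) (h : Q T = 0) : hmap T = 0 := by
  funext K
  unfold hmap symOut
  have h1 : ∀ K : Fin n → Fin d → Fin m, symIn (regroup T) K = 0 := by
    intro K
    have := T'_eq_zero T h (fun a b => K b a)
    unfold symIn regroup
    unfold T' at this
    rw [this, zero_div]
  simp [h1]

theorem partA (d n : ℕ) (hd : Odd d) (hn : 2 ≤ n) (T : Ten n d n) (hT : T ∈ rect d n) :
    hmap T = 0 := hmap_eq_zero T (Q_zero hT hd hn)

end Pool.Agent.H70K
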