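import Pool.Agent.H70K.T1

open Matrix Equiv

namespace Pool.Agent.H70K

def ell : Fin 7 → Fin 4 → ℤ :=
  ![![0,0,1,0], ![0,0,0,1], ![1,0,1,1], ![1,0,0,0], ![0,1,0,0], ![0,1,1,-1], ![1,1,0,0]]

def blk : Fin 7 → Fin 4 → Fin 7 :=
  ![![2,4,5,6], ![0,3,5,6], ![0,1,4,6], ![0,1,2,5], ![1,2,3,6], ![0,2,3,4], ![1,3,4,5]]

def sl : Fin 7 → Fin 4 → Fin 4 :=
  ![![0,0,0,0], ![0,0,1,1], ![1,0,1,2], ![2,1,1,2], ![2,2,1,3], ![3,3,2,2], ![3,3,3,3]]

def codeN : ℕ := 8934741301457034989957618401520355784168438493735834664837576582773277288414474313792964099935127647331280026475229655733512586461412847334872693176470527160530928718011620205715435821686564036110573201186895433819414261581945276331436085389432340580032086659678847984095391871328495381641105699269088464414944725838294187234656247719923743287646276029523080078812138452196974046223152862508149874977408194985607069215708358171906776123382230138730904500027131012191150790053323748566284283705390554442015962987833486655144820313941812742371302886382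759943340155164217325775821788109043025158566688242007016162713144941131512635384812018084191069452600064724831211170360614145762659695467194643526307072344052200192701967730979099885063493306824663702823967546717883013682035903915162518125339165255852675572213091271784204131941065917665124843214089442312104595302838310711199142833989558993405096579005592974179224844132007608618566491163250384671120077797057906668992633317883420070164326931376746400148655847113845497461898583270186189905654463488100292915950876606737615707400686896522972610477975813727811235553558183388768237953132419116759877480803411261031670422548946866934395900074095899112050762845726386129581818708919882860755836229740495660314667707738254206141917207643608622945709361993186549342722332187873236526244353507537711064001619297388850948597749399213645557673231653838166363490698986811824218499874427467782174950570067297154690045010304370187460125801518133833030901631957998557000406639199064661769800380470945895115311594685416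4106677762476239141589834032940682517624118325785305572212892744959389182005981891907626339821249540548875546913054288531623211190253870206033441190020200166016142588530140291990133754678887185354770880044910761978023814560314481476485003206212786570300590994226050902944268270667633332234667913047066892308057961853057978489653129078347749981603873946823856167058910732176408349639668891740308774311824701229353733256255863548671433193672934415182336486161782495787025965115183172280305073901847131297322506390829701526396977221992025625127013435067034382813132904626568919606586794820343591160186167020599003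

def Dn (a b c d : ℕ) : ℤ := (((codeN >>> (3 * (a + 7 * b + 49 * c + 343 * d))) % 8 : ℕ) : ℤ) - 3

/-- 2x2 minors -/
def mn (u v : Fin 4 → ℤ) (i j : Fin 4) : ℤ := u i * v j - u j * v i

def detE (a b c d : Fin 4 → ℤ) : ℤ :=
  mn a b 0 1 * mn c d 2 3 - mn a b 0 2 * mn c d 1 3 + mn a b 0 3 * mn c d 1 2
  + mn a b 1 2 * mn c d 0 3 - mn a b 1 3 * mn c d 0 2 + mn a b 2 3 * mn c d 0 1

lemma det_four (M : Matrix (Fin 4) (Fin 4) ℤ) : M.det = detE (M 0) (M 1) (M 2) (M 3) := by
  rw [Matrix.det_succ_row_zero]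
  simp only [Fin.sum_univ_four, Matrix.det_fin_three, Matrix.submatrix_apply, detE, mn]
  simp only [Fin.succAbove, Fin.succ, Fin.castSucc]
  simp (decide := true)
  ring

lemma tab_ok : ∀ a b c d : Fin 7, detE (ell a) (ell b) (ell c) (ell d) = Dn a b c d := by
  decide +kernel

def all7 (p : ℕ → Bool) : Bool := p 0 && (p 1 && (p 2 && (p 3 && (p 4 && (p 5 && p 6)))))

lemma all7_spec {p : ℕ → Bool} (h : all7 p = true) (i : Fin 7) : p i.val = true := by
  unfold all7 at h
  simp only [Bool.and_eq_true] at h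
  obtain ⟨h0, h1, h2, h3, h4, h5, h6⟩ := h
  fin_cases i <;> assumption

def prodN (x0 x1 x2 x3 x4 x5 x6 : ℕ) : ℤ :=
  Dn x2 x4 x5 x6 * Dn x0 x3 x5 x6 * Dn x0 x1 x4 x6 * Dn x0 x1 x2 x5 * Dn x1 x2 x3 x6
    * Dn x0 x2 x3 x4 * Dn x1 x3 x4 x5

def chk : Bool :=
  all7 fun x0 => all7 fun x1 => (x0 == x1) || all7 fun x2 => (x0 == x2 || x1 == x2) ||
  all7 fun x3 => (x0 == x3 || (x1 == x3 || x2 == x3)) ||
  all7 fun x4 => (x0 == x4 || (x1 == x4 || (x2 == x4 || x3 == x4))) ||
  all7 fun x5 => (x0 == x5 || (x1 == x5 || (x2 == x5 || (x3 == x5 || x4 == x5)))) ||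
  all7 fun x6 => (x0 == x6 || (x1 == x6 || (x2 == x6 || (x3 == x6 || (x4 == x6 || x5 == x6))))) ||
  decide (0 ≤ prodN x0 x1 x2 x3 x4 x5 x6)

lemma chk_ok : chk = true := by decide +kernel

lemma prodN_nonneg (x : Fin 7 → Fin 7) (hx : Function.Injective x) :
    0 ≤ prodN (x 0) (x 1) (x 2) (x 3) (x 4) (x 5) (x 6) := by
  have h := chk_ok
  unfold chk at h
  have h0 := all7_spec h (x 0)
  have h1 := all7_spec h0 (x 1)
  have ne : ∀ i j : Fin 7, i ≠ j → ((x i : ℕ) == (x j : ℕ)) = false := by
    intro i j hij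
    have : x i ≠ x j := fun h => hij (hx h)
    simpa [Fin.ext_iff] using this
  rw [ne 0 1 (by decide), Bool.false_or] at h1
  have h2 := all7_spec h1 (x 2)
  rw [ne 0 2 (by decide), ne 1 2 (by decide), Bool.false_or, Bool.false_or] at h2
  have h3 := all7_spec h2 (x 3)
  rw [ne 0 3 (by decide), ne 1 3 (by decide), ne 2 3 (by decide), Bool.false_or, Bool.false_or,
    Bool.false_or] at h3
  have h4 := all7_spec h3 (x 4)
  rw [ne 0 4 (by decide), ne 1 4 (by decide), ne 2 4 (by decide), ne 3 4 (by decide),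
    Bool.false_or, Bool.false_or, Bool.false_or, Bool.false_or] at h4
  have h5 := all7_spec h4 (x 5)
  rw [ne 0 5 (by decide), ne 1 5 (by decide), ne 2 5 (by decide), ne 3 5 (by decide),
    ne 4 5 (by decide), Bool.false_or, Bool.false_or, Bool.false_or, Bool.false_or,
    Bool.false_or] at h5
  have h6 := all7_spec h5 (x 6)
  rw [ne 0 6 (by decide), ne 1 6 (by decide), ne 2 6 (by decide), ne 3 6 (by decide),
    ne 4 6 (by decide), ne 5 6 (by decide), Bool.false_or, Bool.false_or, Bool.false_or,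
    Bool.false_or, Bool.false_or, Bool.false_or] at h6
  exact of_decide_eq_true h6

/-- the integer attached to a permutation of the seven vectors. -/
def zz (σ : Perm (Fin 7)) : ℤ :=
  ∏ k : Fin 7, (Matrix.of fun c j => ell (σ (blk k c)) j : Matrix (Fin 4) (Fin 4) ℤ).det

lemma zz_eq (σ : Perm (Fin 7)) :
    zz σ = prodN (σ 0) (σ 1) (σ 2) (σ 3) (σ 4) (σ 5) (σ 6) := by
  unfold zz prodN
  rw [Fin.prod_univ_seven]
  simp only [det_four]
  simp only [← tab_ok]
  rfl

lemma zz_nonneg (σ : Perm (Fin 7)) : 0 ≤ zz σ := by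
  rw [zz_eq]; exact prodN_nonneg σ σ.injective

lemma zz_one : 0 < zz 1 := by
  rw [zz_eq]; decide +kernel

def posn (p : Fin 7 × Fin 4) : Fin 7 × Fin 4 := (blk p.1 p.2, sl p.1 p.2)

lemma posn_bij : Function.Bijective posn := by decide +kernel

noncomputable def posE : Fin 7 × Fin 4 ≃ Fin 7 × Fin 4 := Equiv.ofBijective posn posn_bij

/-- reindexing of multi-indices -/
noncomputable def EE : (Fin 7 → Fin 4 → Fin 4) ≃ (Fin 7 → Fin 4 → Fin 4) where
  toFun J := fun k c => J (blk k c) (sl k c)
  invFun J := fun a b => J (posE.symm (a, b)).1 (posE.symm (a, b)).2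
  left_inv J := by
    ext1 a; ext1 b
    have h := posE.apply_symm_apply (a, b)
    have h1 : blk (posE.symm (a, b)).1 (posE.symm (a, b)).2 = a := congrArg Prod.fst h
    have h2 : sl (posE.symm (a, b)).1 (posE.symm (a, b)).2 = b := congrArg Prod.snd h
    simp only [h1, h2]
  right_inv J := by
    ext1 k; ext1 c
    have h : posE.symm (blk k c, sl k c) = (k, c) := posE.symm_apply_apply (k, c)
    simp only [h]

lemma EE_prod (F : Fin 7 → Fin 4 → ℂ) :
    ∏ a, ∏ b, F a b = ∏ k, ∏ c, F (blk k c) (sl k c) := by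
  rw [← Fintype.prod_prod_type' (f := F), ← Fintype.prod_prod_type'
    (f := fun k c => F (blk k c) (sl k c))]
  exact (Equiv.prod_comp posE (fun p => F p.1 p.2)).symm

/-- 0-1 matrix -/
def dl (j : Fin 4 → Fin 4) : Matrix (Fin 4) (Fin 4) ℂ := fun c i => if j c = i then 1 else 0

lemma det_expand (y : Matrix (Fin 4) (Fin 4) ℂ) :
    y.det = ∑ j : Fin 4 → Fin 4, (∏ c, y c (j c)) * (dl j).det := by
  have h1 : y = fun c => ∑ i : Fin 4, (y c i) • (fun i' => if i = i' then (1 : ℂ) else 0) := by
    ext c i'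
    simp
  have h2 : y.det = Matrix.detRowAlternating
      (fun c => ∑ i : Fin 4, (y c i) • (fun i' => if i = i' then (1 : ℂ) else 0)) := by
    conv_lhs => rw [h1]
    rfl
  rw [h2, ← AlternatingMap.coe_multilinearMap, MultilinearMap.map_sum]
  refine Finset.sum_congr rfl fun j _ => ?_
  rw [MultilinearMap.map_smul_univ]
  rfl

def T0 : Ten 4 7 4 := fun I => ∏ k : Fin 7, (dl (fun c => I (blk k c) (sl k c))).det

lemma L0 (y : Fin 7 → Fin 4 → Fin 4 → ℂ) :
    ∑ J : Fin 7 → Fin 4 → Fin 4, (∏ a, ∏ b, y a b (J a b)) * T0 J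
      = ∏ k : Fin 7, (Matrix.of fun c j => y (blk k c) (sl k c) j : Matrix (Fin 4) (Fin 4) ℂ).det := by
  simp only [det_expand (Matrix.of _)]
  rw [Finset.prod_univ_sum, Fintype.piFinset_univ]
  refine Fintype.sum_equiv EE _ _ fun J => ?_
  rw [EE_prod (fun a b => y a b (J a b)), Finset.prod_mul_distrib]
  rfl

lemma act_T0 (g : Matrix (Fin 4) (Fin 4) ℂ) (I : Fin 7 → Fin 4 → Fin 4) :
    act g T0 I = g.det ^ 7 * T0 I := by
  unfold act
  rw [L0 (fun a b j => g (I a b) j)]
  have h : ∀ k : Fin 7, (Matrix.of fun c j => g (I (blk k c) (sl k c)) j :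
      Matrix (Fin 4) (Fin 4) ℂ).det = (dl (fun c => I (blk k c) (sl k c))).det * g.det := by
    intro k
    rw [← Matrix.det_mul]
    congr 1
    ext c j
    simp [Matrix.mul_apply, dl]
  simp only [h, Finset.prod_mul_distrib, Finset.prod_const, Finset.card_univ, Fintype.card_fin]
  unfold T0
  ring

/-- permute positions -/
def pm (σ : Perm (Fin 7)) (τ : Fin 7 → Perm (Fin 4)) :
    (Fin 7 → Fin 4 → Fin 4) ≃ (Fin 7 → Fin 4 → Fin 4) where
  toFun I := fun a b => I (σ a) (τ a b)
  invFun I := fun a b => I (σ.symm a) ((τ (σ.symm a)).symm b)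
  left_inv I := by ext; simp
  right_inv I := by ext; simp

lemma pm_prod (σ : Perm (Fin 7)) (τ : Fin 7 → Perm (Fin 4)) (F : Fin 7 → Fin 4 → ℂ) :
    ∏ a, ∏ b, F (σ a) (τ a b) = ∏ a, ∏ b, F a b := by
  rw [← Equiv.prod_comp σ (fun a => ∏ b, F a b)]
  refine Finset.prod_congr rfl fun a _ => ?_
  exact Equiv.prod_comp (τ a) (fun b => F (σ a) b)

def T4 : Ten 4 7 4 := fun I => ∑ σ : Perm (Fin 7), ∑ τ : Fin 7 → Perm (Fin 4), T0 (pm σ τ I)

lemma T4_SS : IsSS T4 := by
  intro σ' τ' I
  unfold T4
  refine Fintype.sum_equiv (Equiv.mulLeft σ') _ _ fun σ => ?_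
  refine Fintype.sum_equiv (Equiv.mulLeft (fun a => τ' (σ a))) _ _ fun τ => ?_
  rfl

lemma act_T4 (g : Matrix (Fin 4) (Fin 4) ℂ) (I : Fin 7 → Fin 4 → Fin 4) :
    act g T4 I = g.det ^ 7 * T4 I := by
  unfold act T4
  simp only [Finset.mul_sum]
  rw [Finset.sum_comm]
  refine Finset.sum_congr rfl fun σ _ => ?_
  rw [Finset.sum_comm]
  refine Finset.sum_congr rfl fun τ _ => ?_
  rw [← act_T0]
  unfold act
  refine Fintype.sum_equiv (pm σ τ) _ _ fun J => ?_
  rw [← pm_prod σ τ (fun a b => g (I a b) (J a b))]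
  rfl

lemma T4_rect : T4 ∈ rect 7 4 := ⟨T4_SS, fun _ => funext fun I => act_T4 _ I⟩

lemma T4_contract :
    ∑ J : Fin 7 → Fin 4 → Fin 4, (∏ a, ∏ b, ((ell a (J a b) : ℤ) : ℂ)) * T4 J
      = ∑ σ : Perm (Fin 7), ∑ _τ : Fin 7 → Perm (Fin 4), ((zz σ : ℤ) : ℂ) := by
  unfold T4
  simp only [Finset.mul_sum]
  rw [Finset.sum_comm]
  refine Finset.sum_congr rfl fun σ _ => ?_
  rw [Finset.sum_comm]
  refine Finset.sum_congr rfl fun τ _ => ?_
  have h1 : ∑ J : Fin 7 → Fin 4 → Fin 4, (∏ a, ∏ b, ((ell a (J a b) : ℤ) : ℂ)) * T0 (pm σ τ J)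
      = ∑ J : Fin 7 → Fin 4 → Fin 4, (∏ a, ∏ b, ((ell (σ a) (J a b) : ℤ) : ℂ)) * T0 J := by
    refine Fintype.sum_equiv (pm σ τ) _ _ fun J => ?_
    rw [← pm_prod σ τ (fun a b => ((ell a (J a b) : ℤ) : ℂ))]
    rfl
  rw [h1, L0 (fun a _ j => ((ell (σ a) j : ℤ) : ℂ))]
  unfold zz
  rw [Int.cast_prod]
  refine Finset.prod_congr rfl fun k _ => ?_
  rw [Int.cast_det]
  rfl

lemma T4_ne : T4 ≠ 0 := by
  intro h
  have h1 := T4_contract
  rw [h] at h1
  simp only [Pi.zero_apply, mul_zero, Finset.sum_const_zero] at h1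
  have h2 : (0 : ℤ) < ∑ σ : Perm (Fin 7), ∑ _τ : Fin 7 → Perm (Fin 4), zz σ := by
    refine Finset.sum_pos' (fun σ _ => Finset.sum_nonneg fun _ _ => zz_nonneg σ)
      ⟨1, Finset.mem_univ _, ?_⟩
    exact Finset.sum_pos (fun _ _ => zz_one) Finset.univ_nonempty
  have h3 : ((∑ σ : Perm (Fin 7), ∑ _τ : Fin 7 → Perm (Fin 4), zz σ : ℤ) : ℂ) = 0 := by
    push_cast
    exact h1.symm
  have h4 := Int.cast_eq_zero.1 h3
  omega

end Pool.Agent.H70K
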